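import Pool.Agent.H685R2.Poly.NPDefs

/-!
Graphs with loops, list colourings, and colourings with prescribed numbers of vertices of some
colours.
-/

namespace Pool.Agent.H685R2.Hck

open Pool.Agent.H685R2.Poly

/-- Undirected graphs without multiple edges; loops are allowed. -/
structure LGraph (V : Type) where
  /-- adjacency -/
  Adj : V → V → Prop
  /-- adjacency is symmetric -/
  symm : ∀ u v, Adj u v → Adj v u

/-- `χ` is a homomorphism from `G` to `H`, also called an `H`-colouring of `G`. -/
def IsHom {V W : Type} (G : LGraph V) (H : LGraph W) (χ : V → W) : Prop :=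
  ∀ u v, G.Adj u v → H.Adj (χ u) (χ v)

open Classical in
/-- The string that represents a graph: `n` ones, a zero, and the `n * n` entries of the
adjacency matrix row by row. -/
noncomputable def encodeGraph {n : ℕ} (G : LGraph (Fin n)) : List Bool :=
  List.replicate n true ++ false ::
    (List.finRange n).flatMap fun i => (List.finRange n).map fun j => decide (G.Adj i j)

open Classical in
/-- The list `F`-colouring problem. An instance is a graph `G` together with a set `L u` of
vertices of `F` for every vertex `u` of `G`; it is represented by the string for the graph followed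
by the bits `v ∈ L u`. The question is whether there is an `F`-colouring `χ` of `G` with
`χ u ∈ L u` for all `u`. -/
noncomputable def listProblem {f : ℕ} (F : LGraph (Fin f)) : Problem where
  Inst := Σ n : ℕ, LGraph (Fin n) × (Fin n → Set (Fin f))
  enc a := encodeGraph a.2.1 ++
    (List.finRange a.1).flatMap fun u => (List.finRange f).map fun v => decide (v ∈ a.2.2 u)
  yes a := ∃ χ : Fin a.1 → Fin f, IsHom a.2.1 F χ ∧ ∀ u, χ u ∈ a.2.2 u

/-- The `(H, C, K)`-colouring problem, where `C` lists some distinct vertices of `H` and `K` gives
a number for each of them. An instance is a graph `G`. The question is whether there is an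
`H`-colouring of `G` such that exactly `K i` vertices of `G` are mapped to the vertex `C i`, for
all `i`. -/
noncomputable def weightedProblem {W : Type} {r : ℕ} (H : LGraph W) (C : Fin r ↪ W)
    (K : Fin r → ℕ) : Problem where
  Inst := Σ n : ℕ, LGraph (Fin n)
  enc a := encodeGraph a.2
  yes a := ∃ χ : Fin a.1 → W, IsHom a.2 H χ ∧ ∀ i, {u | χ u = C i}.ncard = K i

/-- `H - C = F`: the graph `F` is (up to the names of the vertices) the subgraph of `H` induced by
the vertices of `H` that are not in `C`. Then `(H, C, K)` is a weighted extension of `F`, for every
`K`. -/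
def IsExtension {W : Type} {r f : ℕ} (H : LGraph W) (C : Fin r ↪ W) (F : LGraph (Fin f)) :
    Prop :=
  ∃ e : Fin f ≃ {w : W // w ∉ Set.range C}, ∀ a b, F.Adj a b ↔ H.Adj (e a) (e b)

end Pool.Agent.H685R2.Hck
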