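import Pool.Agent.H685R2.Hck.Defs
import Pool.Agent.H685R2.Poly.Blocks
import Pool.Agent.H685R2.Poly.NP

/-!
Reading the adjacency matrix, and membership of the weighted colouring problem in NP.
-/

namespace Pool.Agent.H685R2.Hck

open Pool.Agent.H685R2.Poly

open Classical in
/-- the entries of the adjacency matrix as a function of natural numbers -/
noncomputable def adjN {n : ℕ} (G : LGraph (Fin n)) (u v : ℕ) : Bool :=
  if h : u < n ∧ v < n then decide (G.Adj ⟨u, h.1⟩ ⟨v, h.2⟩) else false

theorem encodeGraph_eq {n : ℕ} (G : LGraph (Fin n)) : encodeGraph G =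
    List.replicate n true ++ false ::
      (List.range n).flatMap fun u => (List.range n).map (adjN G u) := by
  classical
  rw [encodeGraph, ← finRange_flatMap n (fun u => (List.range n).map (adjN G u))]
  congr 3
  funext i
  rw [← finRange_map n (adjN G i)]
  congr 1
  funext j
  simp [adjN]

/-- the entry of the adjacency matrix in the string `x` -/
def adjP (x : List Bool) (u v : ℕ) : Bool :=
  (((rest x).drop (u * lead x)).take (lead x)).getD v false

theorem lead_encodeGraph {n : ℕ} (G : LGraph (Fin n)) (tl : List Bool) :
    lead (encodeGraph G ++ tl) = n := by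
  rw [encodeGraph_eq, List.append_assoc, List.cons_append, lead_eq]

theorem rest_encodeGraph {n : ℕ} (G : LGraph (Fin n)) (tl : List Bool) :
    rest (encodeGraph G ++ tl) =
      ((List.range n).flatMap fun u => (List.range n).map (adjN G u)) ++ tl := by
  rw [encodeGraph_eq, List.append_assoc, List.cons_append, rest_eq]

theorem row_encodeGraph {n : ℕ} (G : LGraph (Fin n)) (tl : List Bool) {u : ℕ} (hu : u < n) :
    ((rest (encodeGraph G ++ tl)).drop (u * n)).take n = (List.range n).map (adjN G u) := by
  rw [rest_encodeGraph]
  exact block_eq n n (fun u => (List.range n).map (adjN G u)) tl (fun u _ => by simp) hu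

theorem adjP_encodeGraph {n : ℕ} (G : LGraph (Fin n)) (tl : List Bool) {u v : ℕ} (hu : u < n)
    (hv : v < n) : adjP (encodeGraph G ++ tl) u v = adjN G u v := by
  rw [adjP, lead_encodeGraph, row_encodeGraph G tl hu, List.getD_eq_getElem?_getD]
  simp [hv]

theorem adjN_iff {n : ℕ} (G : LGraph (Fin n)) (u v : Fin n) :
    adjN G u v = true ↔ G.Adj u v := by
  classical
  simp [adjN]

theorem PF.adjP {γ : Type} [DEnc γ] {x : γ → List Bool} {u v : γ → ℕ} (hx : PF x) (hu : PF u)
    (hv : PF v) : PF (fun c => adjP (x c) (u c) (v c)) :=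
  PF.getD hv (PF.take (PF.lead hx) (PF.drop (PF.mul hu (PF.lead hx)) (PF.rest hx)))
    (PF.const false)

theorem length_encodeGraph_ge {n : ℕ} (G : LGraph (Fin n)) (tl : List Bool) :
    n ≤ (encodeGraph G ++ tl).length := by
  rw [encodeGraph_eq]
  simp

section

variable {h r : ℕ} (H : LGraph (Fin h)) (C : Fin r ↪ Fin h) (K : Fin r → ℕ)

/-- the colour of the vertex `u` according to the certificate `w` -/
def col (h : ℕ) (w : List Bool) (u : ℕ) : ℕ := (((w.drop (u * h)).take h).filter id).length

/-- table for the adjacency in `H` -/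
noncomputable def tab : List (List Bool) := (List.range h).map fun a => (List.range h).map (adjN H a)

theorem tab_eq {a b : ℕ} (ha : a < h) (hb : b < h) :
    ((tab H).getD a []).getD b false = adjN H a b := by
  rw [tab, List.getD_eq_getElem?_getD, List.getD_eq_getElem?_getD]
  simp [ha, hb]

/-- list of the vertices in `C` with the prescribed numbers -/
def req : List (ℕ × ℕ) := (List.finRange r).map fun i => ((C i : ℕ), K i)

/-- the verifier -/
noncomputable def ver (p : List Bool × List Bool) : Bool :=
  ((List.range (lead p.1)).all fun u => decide (col h p.2 u < h)) &&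
  (((List.range (lead p.1)).all fun u => (List.range (lead p.1)).all fun v =>
    !(adjP p.1 u v) || ((tab H).getD (col h p.2 u) []).getD (col h p.2 v) false) &&
  ((req C K).all fun q => decide (((List.range (lead p.1)).filter fun u =>
    decide (col h p.2 u = q.1)).length = q.2)))

theorem PF.col {γ : Type} [DEnc γ] (h : ℕ) {w : γ → List Bool} {u : γ → ℕ} (hw : PF w)
    (hu : PF u) : PF (fun c => col h (w c) (u c)) :=
  PF.length (PF.filter (f := fun p : γ × Bool => id p.2)
    (PF.take (PF.const h) (PF.drop (PF.mul hu (PF.const h)) hw)) PF.snd')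

theorem PF.ver : PF (ver H C K) := by
  have hr : PF (fun p : List Bool × List Bool => List.range (lead p.1)) :=
    PF.range (PF.lead PF.fst')
  refine PF.and ?_ (PF.and ?_ ?_)
  · exact PF.all (f := fun q : (List Bool × List Bool) × ℕ => decide (Hck.col h q.1.2 q.2 < h))
      hr (PF.lt (PF.col h (PF.snd PF.fst') PF.snd') (PF.const h))
  · refine PF.all (f := fun q : (List Bool × List Bool) × ℕ =>
      (List.range (lead q.1.1)).all fun v =>
        !(Hck.adjP q.1.1 q.2 v) || ((tab H).getD (Hck.col h q.1.2 q.2) []).getD
          (Hck.col h q.1.2 v) false) hr ?_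
    refine PF.all (f := fun q : ((List Bool × List Bool) × ℕ) × ℕ =>
        !(Hck.adjP q.1.1.1 q.1.2 q.2) || ((tab H).getD (Hck.col h q.1.1.2 q.1.2) []).getD
          (Hck.col h q.1.1.2 q.2) false) (PF.comp (g := fun p : List Bool × List Bool =>
        List.range (lead p.1)) hr PF.fst') ?_
    refine PF.or (PF.not (PF.adjP (PF.fst (PF.fst PF.fst')) (PF.snd PF.fst') PF.snd')) ?_
    exact PF.getD (PF.col h (PF.snd (PF.fst PF.fst')) PF.snd')
      (PF.getD (PF.col h (PF.snd (PF.fst PF.fst')) (PF.snd PF.fst')) (PF.const (tab H))
        (PF.const [])) (PF.const false)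
  · refine PF.all (f := fun q : (List Bool × List Bool) × (ℕ × ℕ) =>
      decide (((List.range (lead q.1.1)).filter fun u =>
        decide (Hck.col h q.1.2 u = q.2.1)).length = q.2.2)) (PF.const (req C K)) ?_
    refine PF.natEq (PF.length ?_) (PF.snd PF.snd')
    exact PF.filter (f := fun q : ((List Bool × List Bool) × (ℕ × ℕ)) × ℕ =>
      decide (Hck.col h q.1.1.2 q.2 = q.1.2.1)) (PF.comp (g := fun p : List Bool × List Bool =>
        List.range (lead p.1)) hr PF.fst')
      (PF.natEq (PF.col h (PF.snd (PF.fst PF.fst')) PF.snd') (PF.fst (PF.snd PF.fst')))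

/-- the certificate for a colouring -/
def cert {n : ℕ} (χ : Fin n → Fin h) : List Bool :=
  (List.range n).flatMap fun u => if hu : u < n then
    List.replicate (χ ⟨u, hu⟩) true ++ List.replicate (h - χ ⟨u, hu⟩) false else []

theorem col_cert {n : ℕ} (χ : Fin n → Fin h) (u : Fin n) : col h (cert χ) u = χ u := by
  rw [col]
  have h1 := block_eq n h (fun u => if hu : u < n then
    List.replicate (χ ⟨u, hu⟩) true ++ List.replicate (h - χ ⟨u, hu⟩) false else []) []
    (fun v hv => by
      rw [dif_pos hv, List.length_append, List.length_replicate, List.length_replicate]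
      have := (χ ⟨v, hv⟩).2
      omega) u.2
  rw [List.append_nil, dif_pos u.2] at h1
  rw [cert, h1]
  simp

theorem length_cert {n : ℕ} (χ : Fin n → Fin h) : (cert χ).length = n * h := by
  rw [cert, length_flatMap_const _ _ h, List.length_range]
  intro v hv
  rw [List.mem_range] at hv
  rw [dif_pos hv, List.length_append, List.length_replicate, List.length_replicate]
  have := (χ ⟨v, hv⟩).2
  omega

theorem ncard_eq_length {n : ℕ} (c : ℕ → ℕ) (k : ℕ) :
    {u : Fin n | c u = k}.ncard = ((List.range n).filter fun u => decide (c u = k)).length := by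
  classical
  have h1 : {u : Fin n | c u = k} = ((Finset.univ.filter fun u : Fin n => c u = k) :
      Set (Fin n)) := by
    ext; simp
  rw [h1, Set.ncard_coe_finset]
  have h2 : (Finset.univ.filter fun u : Fin n => c u = k).card =
      ((List.finRange n).filter fun u : Fin n => decide (c u = k)).length := by
    rfl
  rw [h2, ← List.map_coe_finRange_eq_range, List.filter_map, List.length_map]
  rfl

end

end Pool.Agent.H685R2.Hck
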