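import Pool.Agent.H685R2.Hck.Red

/-!
The reduction on strings is correct.
-/

namespace Pool.Agent.H685R2.Hck

open Pool.Agent.H685R2.Poly

section

variable (f : ℕ) {n : ℕ} (G : LGraph (Fin n)) (L : Fin n → Set (Fin f))

theorem eV_inl (u : Fin n) : ((eV f n (.inl u) : Fin _) : ℕ) = u := by
  simp [eV]

theorem eV_inr_inl (i : Fin (mm f)) : ((eV f n (.inr (.inl i)) : Fin _) : ℕ) = n + i := by
  simp [eV]

theorem eV_inr_inr (ρ : Fin (RR f)) :
    ((eV f n (.inr (.inr ρ)) : Fin _) : ℕ) = n + (mm f + ρ) := by
  simp [eV]

open Classical in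
theorem adjN_GG (x y : Fin n ⊕ (Fin (mm f) ⊕ Fin (RR f))) :
    adjN (GG f G L) (eV f n x) (eV f n y) = decide (redAdj G L (pat f) (owner f) x y) := by
  rw [adjN, dif_pos ⟨(eV f n x).2, (eV f n y).2⟩]
  rw [decide_eq_decide]
  change redAdj G L (pat f) (owner f) ((eV f n).symm (eV f n x)) ((eV f n).symm (eV f n y)) ↔ _
  rw [Equiv.symm_apply_apply, Equiv.symm_apply_apply]

/-- the string of the lists -/
noncomputable def lists : List Bool :=
  (List.range n).flatMap fun u => if h : u < n then bits f (L ⟨u, h⟩)
    else List.replicate f false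

theorem enc_eq (F : LGraph (Fin f)) :
    (listProblem F).enc ⟨n, G, L⟩ = encodeGraph G ++ lists f L := by
  classical
  rw [lists, ← finRange_flatMap n]
  change encodeGraph G ++ ((List.finRange n).flatMap fun u =>
    (List.finRange f).map fun v => decide (v ∈ L u)) = _
  congr 2
  funext u
  rw [dif_pos u.2]
  rfl

theorem length_bits (S : Set (Fin f)) : (bits f S).length = f := by
  simp [bits]

theorem lst_eq (u : Fin n) : lst f (encodeGraph G ++ lists f L) u = bits f (L u) := by
  rw [lst, lead_encodeGraph, rest_encodeGraph, ← List.drop_drop]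
  rw [List.drop_left' (by
    rw [length_flatMap_const _ _ n, List.length_range]
    intro a _
    simp)]
  have h := block_eq n f (fun u => if h : u < n then bits f (L ⟨u, h⟩)
    else List.replicate f false) [] (fun u hu => by rw [dif_pos hu, length_bits]) u.2
  rw [List.append_nil, dif_pos u.2] at h
  exact h

theorem map_false {α : Type} (l : List α) (g : α → Bool) (k : ℕ) (hk : l.length = k)
    (h : ∀ a ∈ l, g a = false) : l.map g = List.replicate k false := by
  rw [List.eq_replicate_iff]
  refine ⟨by rw [List.length_map, hk], ?_⟩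
  intro b hb
  obtain ⟨a, ha, rfl⟩ := List.mem_map.1 hb
  exact h a ha

theorem adjN_GG_false (x y : Fin n ⊕ (Fin (mm f) ⊕ Fin (RR f)))
    (h : ¬ redAdj G L (pat f) (owner f) x y) :
    adjN (GG f G L) (eV f n x) (eV f n y) = false := by
  classical
  rw [adjN_GG, decide_eq_false h]

theorem adjN_GG_iff (x y : Fin n ⊕ (Fin (mm f) ⊕ Fin (RR f))) (P : Prop) [Decidable P]
    (h : redAdj G L (pat f) (owner f) x y ↔ P) :
    adjN (GG f G L) (eV f n x) (eV f n y) = decide P := by
  classical
  rw [adjN_GG]
  exact decide_eq_decide.2 h

theorem row_inl (u : Fin n) :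
    (List.range (n + (mm f + RR f))).map (adjN (GG f G L) u) =
      (List.range n).map (adjN G u) ++
        (((pats f).map fun q => decide (q.2 = bits f (L u))) ++
          List.replicate (RR f) false) := by
  classical
  rw [range_three]
  have h1 : (List.finRange n).map (fun v : Fin n => adjN (GG f G L) u v) =
      (List.range n).map (adjN G u) := by
    rw [← finRange_map n]
    refine List.map_congr_left fun v _ => ?_
    have h := adjN_GG_iff f G L (.inl u) (.inl v) (G.Adj u v) Iff.rfl
    rw [eV_inl, eV_inl] at h
    rw [h, adjN, dif_pos ⟨u.2, v.2⟩]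
  have h2 : (List.finRange (mm f)).map (fun i : Fin (mm f) => adjN (GG f G L) u (n + i)) =
      (pats f).map fun q => decide (q.2 = bits f (L u)) := by
    rw [pats, List.map_map]
    refine List.map_congr_left fun i _ => ?_
    have h := adjN_GG_iff f G L (.inl u) (.inr (.inl i)) (bits f (pat f i) = bits f (L u))
      ⟨fun hh => congrArg (bits f) hh, fun hh => bits_injective f hh⟩
    rw [eV_inl, eV_inr_inl] at h
    exact h
  have h3 : (List.finRange (RR f)).map
      (fun ρ : Fin (RR f) => adjN (GG f G L) u (n + (mm f + ρ))) =
      List.replicate (RR f) false := by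
    refine map_false _ _ _ (by simp) fun ρ _ => ?_
    have h := adjN_GG_false f G L (.inl u) (.inr (.inr ρ)) (fun hh => hh)
    rw [eV_inl, eV_inr_inr] at h
    exact h
  rw [h1, h2, h3]

theorem row_inr_inl (i : Fin (mm f)) :
    (List.range (n + (mm f + RR f))).map (adjN (GG f G L) (n + i)) =
      ((List.finRange n).map fun u => decide (bits f (pat f i) = bits f (L u))) ++
        (List.replicate (mm f) false ++ (owners f).map fun o => decide (o = (i : ℕ))) := by
  classical
  rw [range_three]
  have h1 : (List.finRange n).map (fun u : Fin n => adjN (GG f G L) (n + i) u) =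
      (List.finRange n).map fun u => decide (bits f (pat f i) = bits f (L u)) := by
    refine List.map_congr_left fun u _ => ?_
    have h := adjN_GG_iff f G L (.inr (.inl i)) (.inl u) (bits f (pat f i) = bits f (L u))
      ⟨fun hh => congrArg (bits f) hh, fun hh => bits_injective f hh⟩
    rw [eV_inl, eV_inr_inl] at h
    exact h
  have h2 : (List.finRange (mm f)).map
      (fun j : Fin (mm f) => adjN (GG f G L) (n + i) (n + j)) =
      List.replicate (mm f) false := by
    refine map_false _ _ _ (by simp) fun j _ => ?_
    have h := adjN_GG_false f G L (.inr (.inl i)) (.inr (.inl j)) (fun hh => hh)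
    rw [eV_inr_inl, eV_inr_inl] at h
    exact h
  have h3 : (List.finRange (RR f)).map
      (fun ρ : Fin (RR f) => adjN (GG f G L) (n + i) (n + (mm f + ρ))) =
      (owners f).map fun o => decide (o = (i : ℕ)) := by
    rw [owners, List.map_map]
    refine List.map_congr_left fun ρ _ => ?_
    have h := adjN_GG_iff f G L (.inr (.inl i)) (.inr (.inr ρ)) ((owner f ρ : ℕ) = i)
      ⟨fun hh => congrArg Fin.val hh, fun hh => Fin.ext hh⟩
    rw [eV_inr_inl, eV_inr_inr] at h
    exact h
  rw [h1, h2, h3]

theorem row_inr_inr (ρ : Fin (RR f)) :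
    (List.range (n + (mm f + RR f))).map (adjN (GG f G L) (n + (mm f + ρ))) =
      List.replicate n false ++
        (((List.range (mm f)).map fun i => decide (((owner f ρ : Fin (mm f)) : ℕ) = i)) ++
          List.replicate (RR f) false) := by
  classical
  rw [range_three]
  have h1 : (List.finRange n).map
      (fun u : Fin n => adjN (GG f G L) (n + (mm f + ρ)) u) = List.replicate n false := by
    refine map_false _ _ _ (by simp) fun u _ => ?_
    have h := adjN_GG_false f G L (.inr (.inr ρ)) (.inl u) (fun hh => hh)
    rw [eV_inl, eV_inr_inr] at h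
    exact h
  have h2 : (List.finRange (mm f)).map
      (fun i : Fin (mm f) => adjN (GG f G L) (n + (mm f + ρ)) (n + i)) =
      (List.range (mm f)).map fun i => decide (((owner f ρ : Fin (mm f)) : ℕ) = i) := by
    rw [← finRange_map (mm f)]
    refine List.map_congr_left fun i _ => ?_
    have h := adjN_GG_iff f G L (.inr (.inr ρ)) (.inr (.inl i)) ((owner f ρ : ℕ) = i)
      ⟨fun hh => congrArg Fin.val hh, fun hh => Fin.ext hh⟩
    rw [eV_inr_inl, eV_inr_inr] at h
    exact h
  have h3 : (List.finRange (RR f)).map
      (fun σ : Fin (RR f) => adjN (GG f G L) (n + (mm f + ρ)) (n + (mm f + σ))) =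
      List.replicate (RR f) false := by
    refine map_false _ _ _ (by simp) fun σ _ => ?_
    have h := adjN_GG_false f G L (.inr (.inr ρ)) (.inr (.inr σ)) (fun hh => hh)
    rw [eV_inr_inr, eV_inr_inr] at h
    exact h
  rw [h1, h2, h3]

theorem prog_eq : prog f (encodeGraph G ++ lists f L) = encodeGraph (GG f G L) := by
  classical
  rw [encodeGraph_eq (GG f G L), prog, lead_encodeGraph, range_three_flatMap]
  have h1 : ((List.range n).flatMap fun u =>
      ((rest (encodeGraph G ++ lists f L)).drop (u * n)).take n ++
        (((pats f).map fun q => decide (q.2 = lst f (encodeGraph G ++ lists f L) u)) ++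
          List.replicate (RR f) false)) =
      (List.finRange n).flatMap fun u : Fin n =>
        (List.range (n + (mm f + RR f))).map (adjN (GG f G L) u) := by
    rw [← finRange_flatMap n]
    refine List.flatMap_congr fun u _ => ?_
    rw [row_inl, row_encodeGraph G _ u.2, lst_eq]
  have h2 : ((pats f).flatMap fun q =>
      ((List.range n).map fun u => decide (q.2 = lst f (encodeGraph G ++ lists f L) u)) ++
        (List.replicate (mm f) false ++ (owners f).map fun o => decide (o = q.1))) =
      (List.finRange (mm f)).flatMap fun i : Fin (mm f) =>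
        (List.range (n + (mm f + RR f))).map (adjN (GG f G L) (n + i)) := by
    rw [pats, List.flatMap_map]
    refine List.flatMap_congr fun i _ => ?_
    rw [row_inr_inl, ← finRange_map n]
    congr 1
    refine List.map_congr_left fun u _ => ?_
    rw [lst_eq]
  have h3 : ((owners f).flatMap fun o =>
      List.replicate n false ++
        (((List.range (mm f)).map fun i => decide (o = i)) ++ List.replicate (RR f) false)) =
      (List.finRange (RR f)).flatMap fun ρ : Fin (RR f) =>
        (List.range (n + (mm f + RR f))).map (adjN (GG f G L) (n + (mm f + ρ))) := by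
    rw [owners, List.flatMap_map]
    refine List.flatMap_congr fun ρ _ => ?_
    rw [row_inr_inr]
  rw [h1, h2, h3]

end

/-- The list `F`-colouring problem is reducible to the weighted colouring problem. -/
theorem list_reduces {f : ℕ} (F : LGraph (Fin f)) :
    Reduces (listProblem F) (weightedProblem (HH f F) (CC f) (KK f)) := by
  refine Reduces.of_PF (P := listProblem F) (Q := weightedProblem (HH f F) (CC f) (KK f))
    (fun a => ⟨_, GG f a.2.1 a.2.2⟩) (PF.prog f) ?_ ?_
  · rintro ⟨n, G, L⟩
    rw [enc_eq]
    exact prog_eq f G L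
  · rintro ⟨n, G, L⟩
    exact weighted_iff_list f F G L

end Pool.Agent.H685R2.Hck
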