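import Pool.Agent.H685R2.Hck.Defs

/-!
The combinatorial part of the reduction.
-/

namespace Pool.Agent.H685R2.Hck

section

variable {V A I R : Type} (F : LGraph A) (G : LGraph V) (L : V → Set A) (pat : I → Set A)
  (owner : R → I)

/-- adjacency of the extension of `F` -/
def extAdj : A ⊕ (I ⊕ I) → A ⊕ (I ⊕ I) → Prop
  | .inl a, .inl b => F.Adj a b
  | .inl a, .inr (.inl i) => a ∈ pat i
  | .inr (.inl i), .inl a => a ∈ pat i
  | .inr (.inl i), .inr (.inr j) => i = j
  | .inr (.inr i), .inr (.inl j) => i = j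
  | _, _ => False

/-- the extension of `F`: for every `i` a vertex `a i` that is adjacent to the vertices in `pat i`
and to one more vertex `c i` of degree one -/
def ext : LGraph (A ⊕ (I ⊕ I)) where
  Adj := extAdj F pat
  symm := by
    rintro (a | i | i) (b | j | j) h
    · exact F.symm _ _ h
    · exact h
    · exact h
    · exact h
    · exact h
    · exact Eq.symm h
    · exact h
    · exact Eq.symm h
    · exact h

/-- adjacency of the graph constructed from an instance of the list colouring problem -/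
def redAdj : V ⊕ (I ⊕ R) → V ⊕ (I ⊕ R) → Prop
  | .inl u, .inl v => G.Adj u v
  | .inl u, .inr (.inl i) => pat i = L u
  | .inr (.inl i), .inl u => pat i = L u
  | .inr (.inl i), .inr (.inr ρ) => owner ρ = i
  | .inr (.inr ρ), .inr (.inl i) => owner ρ = i
  | _, _ => False

/-- the graph constructed from an instance of the list colouring problem -/
def red : LGraph (V ⊕ (I ⊕ R)) where
  Adj := redAdj G L pat owner
  symm := by
    rintro (a | i | i) (b | j | j) h
    · exact G.symm _ _ h
    all_goals exact h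

end

section

variable {V A I R : Type} [Finite V] [Finite I] [Finite R] {F : LGraph A} {G : LGraph V}
  {L : V → Set A} {pat : I → Set A} {owner : R → I} {cnt : I → ℕ}

/-- From a list colouring of `G` to a weighted colouring of the constructed graph. -/
theorem exists_weighted (howner : ∀ i, {ρ | owner ρ = i}.ncard = cnt i)
    {χ : V → A} (h1 : IsHom G F χ) (h2 : ∀ u, χ u ∈ L u) :
    ∃ χ' : V ⊕ (I ⊕ R) → A ⊕ (I ⊕ I), IsHom (red G L pat owner) (ext F pat) χ' ∧
      (∀ i, {x | χ' x = .inr (.inl i)}.ncard = 1) ∧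
      (∀ i, {x | χ' x = .inr (.inr i)}.ncard = cnt i) := by
  refine ⟨Sum.elim (fun u => .inl (χ u)) (Sum.elim (fun i => .inr (.inl i))
    (fun ρ => .inr (.inr (owner ρ)))), ?_, ?_, ?_⟩
  · rintro (u | i | ρ) (v | j | σ) h
    · exact h1 u v h
    · change χ u ∈ pat j
      rw [show pat j = L u from h]
      exact h2 u
    · exact h
    · change χ v ∈ pat i
      rw [show pat i = L v from h]
      exact h2 v
    · exact h
    · exact Eq.symm h
    · exact h
    · exact h
    · exact h
  · intro i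
    rw [Set.ncard_eq_one]
    refine ⟨.inr (.inl i), ?_⟩
    ext x
    rcases x with u | j | ρ <;> simp
  · intro i
    have : {x : V ⊕ (I ⊕ R) | Sum.elim (fun u => (.inl (χ u) : A ⊕ (I ⊕ I)))
        (Sum.elim (fun i => .inr (.inl i)) (fun ρ => .inr (.inr (owner ρ)))) x =
          .inr (.inr i)} = (fun ρ => .inr (.inr ρ)) '' {ρ | owner ρ = i} := by
      ext x
      rcases x with u | j | ρ <;> simp
    rw [this, Set.ncard_image_of_injective _ (fun a b h => by simpa using h), howner]

/-- From a weighted colouring of the constructed graph to a list colouring of `G`. -/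
theorem exists_list (hpat : ∀ S : Set A, ∃ i j, i ≠ j ∧ pat i = S ∧ pat j = S)
    (hcnt : Function.Injective cnt) (hcnt2 : ∀ i, 2 ≤ cnt i)
    (howner : ∀ i, {ρ | owner ρ = i}.ncard = cnt i)
    {χ : V ⊕ (I ⊕ R) → A ⊕ (I ⊕ I)} (h : IsHom (red G L pat owner) (ext F pat) χ)
    (h1 : ∀ i, {x | χ x = .inr (.inl i)}.ncard = 1)
    (h2 : ∀ i, {x | χ x = .inr (.inr i)}.ncard = cnt i) :
    ∃ ψ : V → A, IsHom G F ψ ∧ ∀ u, ψ u ∈ L u := by
  classical
  -- the unique vertex with colour `a i`
  have hy : ∀ i, ∃ y, ∀ x, χ x = .inr (.inl i) ↔ x = y := by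
    intro i
    obtain ⟨y, hy⟩ := Set.ncard_eq_one.1 (h1 i)
    refine ⟨y, fun x => ?_⟩
    have : x ∈ {x | χ x = .inr (.inl i)} ↔ x ∈ ({y} : Set _) := by rw [hy]
    simpa using this
  choose y hy using hy
  have hnb : ∀ i x x', χ x = .inr (.inr i) → (red G L pat owner).Adj x x' → x' = y i := by
    intro i x x' hx hxx'
    have h3 := h x x' hxx'
    rw [hx] at h3
    rw [← hy]
    rcases hx' : χ x' with a | j | j
    · rw [hx'] at h3
      exact h3.elim
    · rw [hx'] at h3
      rw [show i = j from h3]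
    · rw [hx'] at h3
      exact h3.elim
  have hc : ∀ i x, χ x = .inr (.inr i) → ∃ ρ, x = .inr (.inr ρ) ∧ y i = .inr (.inl (owner ρ)) := by
    intro i x hx
    rcases x with u | j | ρ
    · exfalso
      obtain ⟨j, j', hne, hj, hj'⟩ := hpat (L u)
      have h3 := hnb i _ (.inr (.inl j)) hx hj
      have h4 := hnb i _ (.inr (.inl j')) hx hj'
      rw [← h4] at h3
      exact hne (Sum.inl.inj (Sum.inr.inj h3))
    · exfalso
      have h3 : 1 < {ρ | owner ρ = j}.ncard := by
        rw [howner]
        have := hcnt2 j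
        omega
      obtain ⟨ρ, hρ, σ, hσ, hne⟩ := (Set.one_lt_ncard (Set.toFinite _)).1 h3
      have h4 := hnb i _ (.inr (.inr ρ)) hx hρ
      have h5 := hnb i _ (.inr (.inr σ)) hx hσ
      rw [← h5] at h4
      exact hne (Sum.inr.inj (Sum.inr.inj h4))
    · exact ⟨ρ, rfl, (hnb i _ (.inr (.inl (owner ρ))) hx rfl).symm⟩
  -- the permutation
  have hπ : ∀ i, ∃ j, y i = .inr (.inl j) ∧ cnt i ≤ cnt j := by
    intro i
    have hpos : 0 < {x | χ x = .inr (.inr i)}.ncard := by
      rw [h2]
      have := hcnt2 i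
      omega
    obtain ⟨x, hx⟩ := (Set.ncard_pos (Set.toFinite _)).1 hpos
    obtain ⟨ρ, rfl, h3⟩ := hc i x hx
    refine ⟨owner ρ, h3, ?_⟩
    rw [← h2 i, ← howner (owner ρ)]
    have hsub : {x | χ x = .inr (.inr i)} ⊆
        (fun σ => (.inr (.inr σ) : V ⊕ (I ⊕ R))) '' {σ | owner σ = owner ρ} := by
      intro x' hx'
      obtain ⟨σ, rfl, h4⟩ := hc i x' hx'
      rw [h3] at h4
      exact ⟨σ, (Sum.inl.inj (Sum.inr.inj h4)).symm, rfl⟩
    refine (Set.ncard_le_ncard hsub (Set.toFinite _)).trans ?_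
    exact Set.ncard_image_le (Set.toFinite _)
  choose π hπ hle using hπ
  have hinj : Function.Injective π := by
    intro i j hij
    have h3 : y i = y j := by rw [hπ, hπ, hij]
    have h4 := (hy i (y i)).2 rfl
    have h5 := (hy j (y j)).2 rfl
    rw [h3, h5] at h4
    exact (Sum.inl.inj (Sum.inr.inj h4)).symm
  have hid : ∀ i, π i = i := by
    have : Fintype I := Fintype.ofFinite I
    have hb : Function.Bijective π := Finite.injective_iff_bijective.1 hinj
    have hsum : ∑ i, cnt (π i) = ∑ i, cnt i := hb.sum_comp cnt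
    intro i
    by_contra hne
    have hlt : cnt i < cnt (π i) := lt_of_le_of_ne (hle i) fun hh => hne (hcnt hh).symm
    have : ∑ i, cnt i < ∑ i, cnt (π i) :=
      Finset.sum_lt_sum (fun i _ => hle i) ⟨i, Finset.mem_univ i, hlt⟩
    omega
  have hx : ∀ i, χ (.inr (.inl i)) = .inr (.inl i) := by
    intro i
    rw [hy, hπ, hid]
  have hu : ∀ u : V, ∃ a, χ (.inl u) = .inl a := by
    intro u
    rcases hχ : χ (.inl u) with a | i | i
    · exact ⟨a, rfl⟩
    · exfalso
      rw [hy, hπ] at hχ
      cases hχ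
    · exfalso
      obtain ⟨ρ, h3, -⟩ := hc i _ hχ
      cases h3
  choose ψ hψ using hu
  refine ⟨ψ, ?_, ?_⟩
  · intro u v huv
    have h3 := h (.inl u) (.inl v) huv
    rw [hψ, hψ] at h3
    exact h3
  · intro u
    obtain ⟨j, -, -, hj, -⟩ := hpat (L u)
    have h3 := h (.inl u) (.inr (.inl j)) hj
    rw [hψ, hx] at h3
    rw [← hj]
    exact h3

end

end Pool.Agent.H685R2.Hck
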