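import Pool.Agent.H685R2.Hck.Enc

/-!
The weighted colouring problem is in NP.
-/

namespace Pool.Agent.H685R2.Hck

open Pool.Agent.H685R2.Poly

section

variable {h r : ℕ} (H : LGraph (Fin h)) (C : Fin r ↪ Fin h) (K : Fin r → ℕ)

theorem ver_iff {n : ℕ} (G : LGraph (Fin n)) (w : List Bool) :
    ver H C K (encodeGraph G, w) = true ↔
      (∀ u : Fin n, col h w u < h) ∧
      (∀ u v : Fin n, G.Adj u v → adjN H (col h w u) (col h w v) = true) ∧
      (∀ i, {u : Fin n | col h w u = C i}.ncard = K i) := by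
  have hl : lead (encodeGraph G) = n := by
    have := lead_encodeGraph G []
    rwa [List.append_nil] at this
  have ha : ∀ u v : Fin n, adjP (encodeGraph G) u v = adjN G u v := by
    intro u v
    have := adjP_encodeGraph G [] u.2 v.2
    rwa [List.append_nil] at this
  rw [ver, Bool.and_eq_true, Bool.and_eq_true, hl]
  simp only [List.all_eq_true, List.mem_range, decide_eq_true_eq]
  refine Iff.intro ?_ ?_
  · rintro ⟨h1, h2, h3⟩
    refine ⟨fun u => h1 u u.2, fun u v huv => ?_, fun i => ?_⟩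
    · have h4 := h2 u u.2 v v.2
      rw [ha, (adjN_iff G u v).2 huv, tab_eq H (h1 u u.2) (h1 v v.2)] at h4
      simpa using h4
    · rw [ncard_eq_length]
      exact h3 (C i, K i) (by simp only [req, List.mem_map]; exact ⟨i, List.mem_finRange i, rfl⟩)
  · rintro ⟨h1, h2, h3⟩
    refine ⟨fun u hu => h1 ⟨u, hu⟩, fun u hu v hv => ?_, fun q hq => ?_⟩
    · have h4 := ha ⟨u, hu⟩ ⟨v, hv⟩
      simp only at h4
      rw [h4, tab_eq H (h1 ⟨u, hu⟩) (h1 ⟨v, hv⟩)]
      by_cases h5 : G.Adj ⟨u, hu⟩ ⟨v, hv⟩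
      · rw [h2 _ _ h5, Bool.or_true]
      · have h6 : adjN G u v = false := by
          rw [← Bool.not_eq_true]
          exact fun hh => h5 ((adjN_iff G ⟨u, hu⟩ ⟨v, hv⟩).1 hh)
        rw [h6]
        rfl
    · simp only [req, List.mem_map] at hq
      obtain ⟨i, -, rfl⟩ := hq
      rw [← ncard_eq_length]
      exact h3 i

/-- The weighted colouring problem is in NP. -/
theorem weighted_inNP : InNP (weightedProblem H C K) := by
  refine ⟨Polynomial.C h * Polynomial.X, fun a => ver H C K (encodeGraph a.1.2, a.2),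
    PF.tm_verifier (PF.ver H C K) (fun a w => rfl), ?_⟩
  rintro ⟨n, G⟩
  simp only [weightedProblem]
  constructor
  · rintro ⟨χ, h1, h2⟩
    refine ⟨cert χ, ?_, ?_⟩
    · rw [length_cert]
      simp only [Polynomial.eval_mul, Polynomial.eval_C, Polynomial.eval_X]
      rw [mul_comm]
      refine Nat.mul_le_mul_left _ ?_
      have := length_encodeGraph_ge G []
      rwa [List.append_nil] at this
    · rw [ver_iff]
      refine ⟨fun u => ?_, fun u v huv => ?_, fun i => ?_⟩
      · rw [col_cert]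
        exact (χ u).2
      · rw [col_cert, col_cert, adjN_iff]
        exact h1 u v huv
      · rw [← h2 i]
        congr 1
        ext u
        simp only [Set.mem_ofPred_eq]
        rw [col_cert]
        exact ⟨fun hh => Fin.ext hh, fun hh => by rw [hh]⟩
  · rintro ⟨w, -, hw⟩
    rw [ver_iff] at hw
    obtain ⟨h1, h2, h3⟩ := hw
    refine ⟨fun u => ⟨col h w u, h1 u⟩, fun u v huv => ?_, fun i => ?_⟩
    · have h4 := h2 u v huv
      exact (adjN_iff H ⟨_, h1 u⟩ ⟨_, h1 v⟩).1 h4
    · rw [← h3 i]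
      congr 1
      ext u
      simp only [Set.mem_ofPred_eq]
      exact ⟨fun hh => by rw [← hh], fun hh => Fin.ext hh⟩

end

end Pool.Agent.H685R2.Hck
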