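import Pool.Agent.H685R2.Hck.Member
import Pool.Agent.H685R2.Hck.Math

/-!
The reduction from the list colouring problem to the weighted colouring problem.
-/

namespace Pool.Agent.H685R2.Hck

open Pool.Agent.H685R2.Poly

/-- pull back a graph along a map -/
def LGraph.comap {V W : Type} (g : V → W) (H : LGraph W) : LGraph V where
  Adj u v := H.Adj (g u) (g v)
  symm _ _ h := H.symm _ _ h

section index

variable (f : ℕ)

/-- number of vertices `a i` -/
noncomputable def mm : ℕ := Fintype.card (Set (Fin f) × Bool)

noncomputable def eI : (Set (Fin f) × Bool) ≃ Fin (mm f) := Fintype.equivFin _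

/-- the neighbours of `a i` in `F` -/
noncomputable def pat (i : Fin (mm f)) : Set (Fin f) := ((eI f).symm i).1

theorem pat_spec (S : Set (Fin f)) : ∃ i j, i ≠ j ∧ pat f i = S ∧ pat f j = S := by
  refine ⟨eI f (S, false), eI f (S, true), ?_, ?_, ?_⟩
  · intro h
    simpa using (eI f).injective h
  · simp [pat]
  · simp [pat]

/-- the prescribed number for `c i` -/
def cnt (i : Fin (mm f)) : ℕ := i + 2

theorem cnt_injective : Function.Injective (cnt f) := by
  intro i j h
  unfold cnt at h
  exact Fin.ext (by omega)

/-- number of pendant vertices -/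
noncomputable def RR : ℕ := Fintype.card (Σ i : Fin (mm f), Fin (cnt f i))

noncomputable def eR : (Σ i : Fin (mm f), Fin (cnt f i)) ≃ Fin (RR f) := Fintype.equivFin _

/-- the neighbour of a pendant vertex -/
noncomputable def owner (ρ : Fin (RR f)) : Fin (mm f) := ((eR f).symm ρ).1

theorem owner_spec (i : Fin (mm f)) : {ρ | owner f ρ = i}.ncard = cnt f i := by
  have h : {ρ | owner f ρ = i} = (fun k => eR f ⟨i, k⟩) '' (Set.univ : Set (Fin (cnt f i))) := by
    ext ρ
    simp only [owner, Set.mem_ofPred_eq, Set.image_univ, Set.mem_range]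
    constructor
    · rintro rfl
      exact ⟨((eR f).symm ρ).2, by simp⟩
    · rintro ⟨k, rfl⟩
      simp
  rw [h, Set.ncard_image_of_injective, Set.ncard_univ, Nat.card_eq_fintype_card, Fintype.card_fin]
  intro a b hab
  have := (eR f).injective hab
  simpa using this

/-- numbering of the vertices of the extension -/
noncomputable def eW : Fin f ⊕ (Fin (mm f) ⊕ Fin (mm f)) ≃ Fin (f + (mm f + mm f)) :=
  (Equiv.sumCongr (Equiv.refl _) finSumFinEquiv).trans finSumFinEquiv

/-- the extension of `F` -/
noncomputable def HH (F : LGraph (Fin f)) : LGraph (Fin (f + (mm f + mm f))) :=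
  (ext F (pat f)).comap (eW f).symm

/-- the vertices `a i` and `c i` -/
noncomputable def CC : Fin (mm f + mm f) ↪ Fin (f + (mm f + mm f)) :=
  ⟨fun j => eW f (.inr (finSumFinEquiv.symm j)), fun i j h => by
    have h1 := (eW f).injective h
    exact finSumFinEquiv.symm.injective (Sum.inr.inj h1)⟩

/-- the prescribed numbers -/
noncomputable def KK (j : Fin (mm f + mm f)) : ℕ :=
  Sum.elim (fun _ => 1) (cnt f) (finSumFinEquiv.symm j)

theorem CC_apply (x : Fin (mm f) ⊕ Fin (mm f)) : CC f (finSumFinEquiv x) = eW f (.inr x) := by
  change eW f (.inr (finSumFinEquiv.symm (finSumFinEquiv x))) = _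
  rw [Equiv.symm_apply_apply]

theorem KK_apply (x : Fin (mm f) ⊕ Fin (mm f)) :
    KK f (finSumFinEquiv x) = Sum.elim (fun _ => 1) (cnt f) x := by
  rw [KK, Equiv.symm_apply_apply]

theorem isExtension (F : LGraph (Fin f)) : IsExtension (HH f F) (CC f) F := by
  have h1 : ∀ a : Fin f, eW f (.inl a) ∉ Set.range (CC f) := by
    rintro a ⟨j, hj⟩
    have := (eW f).injective hj
    cases this
  refine ⟨Equiv.ofBijective (fun a => ⟨eW f (.inl a), h1 a⟩) ⟨?_, ?_⟩, ?_⟩
  · intro a b h
    have h2 := congrArg Subtype.val h
    exact Sum.inl.inj ((eW f).injective h2)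
  · rintro ⟨w, hw⟩
    obtain ⟨x, rfl⟩ := (eW f).surjective w
    rcases x with a | x
    · exact ⟨a, rfl⟩
    · exfalso
      apply hw
      exact ⟨finSumFinEquiv x, CC_apply f x⟩
  · intro a b
    change F.Adj a b ↔ extAdj F (pat f) ((eW f).symm (eW f (.inl a)))
      ((eW f).symm (eW f (.inl b)))
    rw [Equiv.symm_apply_apply, Equiv.symm_apply_apply]
    exact Iff.rfl

/-- numbering of the vertices of the constructed graph -/
noncomputable def eV (n : ℕ) : Fin n ⊕ (Fin (mm f) ⊕ Fin (RR f)) ≃ Fin (n + (mm f + RR f)) :=
  (Equiv.sumCongr (Equiv.refl _) finSumFinEquiv).trans finSumFinEquiv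

/-- the constructed graph -/
noncomputable def GG {n : ℕ} (G : LGraph (Fin n)) (L : Fin n → Set (Fin f)) :
    LGraph (Fin (n + (mm f + RR f))) :=
  (red G L (pat f) (owner f)).comap (eV f n).symm

theorem weighted_iff_list {n : ℕ} (F : LGraph (Fin f)) (G : LGraph (Fin n))
    (L : Fin n → Set (Fin f)) :
    (∃ χ : Fin n → Fin f, IsHom G F χ ∧ ∀ u, χ u ∈ L u) ↔
    (∃ χ : Fin (n + (mm f + RR f)) → Fin (f + (mm f + mm f)), IsHom (GG f G L) (HH f F) χ ∧
      ∀ i, {u | χ u = CC f i}.ncard = KK f i) := by
  constructor
  · rintro ⟨χ, h1, h2⟩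
    obtain ⟨χ', h3, h4, h5⟩ := exists_weighted (F := F) (pat := pat f) (owner_spec f) h1 h2
    refine ⟨fun u => eW f (χ' ((eV f n).symm u)), ?_, ?_⟩
    · intro u v huv
      have := h3 _ _ huv
      simpa [HH, LGraph.comap] using this
    · intro j
      obtain ⟨x, rfl⟩ := finSumFinEquiv.surjective j
      have h6 : {u | eW f (χ' ((eV f n).symm u)) = CC f (finSumFinEquiv x)} =
          eV f n '' {y | χ' y = .inr x} := by
        ext u
        rw [CC_apply]
        simp only [Set.mem_ofPred_eq, EmbeddingLike.apply_eq_iff_eq, Set.mem_image]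
        constructor
        · intro h
          exact ⟨_, h, by simp⟩
        · rintro ⟨y, h, rfl⟩
          simpa using h
      rw [h6, Set.ncard_image_of_injective _ (eV f n).injective, KK_apply]
      rcases x with i | i
      · exact h4 i
      · exact h5 i
  · rintro ⟨χ, h1, h2⟩
    have h6 : ∀ x : Fin (mm f) ⊕ Fin (mm f),
        {y | (eW f).symm (χ (eV f n y)) = .inr x}.ncard = KK f (finSumFinEquiv x) := by
      intro x
      rw [← h2 (finSumFinEquiv x)]
      have h7 : {u | χ u = CC f (finSumFinEquiv x)} =
          eV f n '' {y | (eW f).symm (χ (eV f n y)) = .inr x} := by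
        ext u
        rw [CC_apply]
        simp only [Set.mem_ofPred_eq, Set.mem_image]
        constructor
        · intro h
          refine ⟨(eV f n).symm u, ?_, by simp⟩
          rw [Equiv.apply_symm_apply, h, Equiv.symm_apply_apply]
        · rintro ⟨y, h, rfl⟩
          rw [← h, Equiv.apply_symm_apply]
      rw [h7, Set.ncard_image_of_injective _ (eV f n).injective]
    refine exists_list (F := F) (G := G) (L := L) (pat := pat f) (owner := owner f)
      (cnt := cnt f) (χ := fun y => (eW f).symm (χ (eV f n y))) (pat_spec f) (cnt_injective f)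
      (fun i => by unfold cnt; omega) (owner_spec f) ?_ ?_ ?_
    · intro x y hxy
      have h7 : (GG f G L).Adj (eV f n x) (eV f n y) := by
        simpa [GG, LGraph.comap] using hxy
      exact h1 _ _ h7
    · intro i
      rw [h6 (.inl i), KK_apply]
      rfl
    · intro i
      rw [h6 (.inr i), KK_apply]
      rfl

end index

section program

variable (f : ℕ)

open Classical in
/-- the bits of a set -/
noncomputable def bits (S : Set (Fin f)) : List Bool :=
  (List.finRange f).map fun v => decide (v ∈ S)

theorem bits_injective : Function.Injective (bits f) := by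
  classical
  intro S T h
  ext v
  have h1 := List.map_inj_left.1 h v (List.mem_finRange v)
  simpa using h1

/-- the string of the list of `u` -/
def lst (x : List Bool) (u : ℕ) : List Bool :=
  ((rest x).drop (lead x * lead x + u * f)).take f

/-- constant data: the numbers `i` with the bits of `pat i` -/
noncomputable def pats : List (ℕ × List Bool) :=
  (List.finRange (mm f)).map fun i : Fin (mm f) => ((i : ℕ), bits f (pat f i))

/-- constant data: the neighbours of the pendant vertices -/
noncomputable def owners : List ℕ :=
  (List.finRange (RR f)).map fun ρ : Fin (RR f) => ((owner f ρ : Fin (mm f)) : ℕ)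

/-- the reduction on strings -/
noncomputable def prog (x : List Bool) : List Bool :=
  List.replicate (lead x + (mm f + RR f)) true ++ false ::
    (((List.range (lead x)).flatMap fun u =>
      ((rest x).drop (u * lead x)).take (lead x) ++
        (((pats f).map fun q => decide (q.2 = lst f x u)) ++ List.replicate (RR f) false)) ++
    (((pats f).flatMap fun q =>
      ((List.range (lead x)).map fun u => decide (q.2 = lst f x u)) ++
        (List.replicate (mm f) false ++ (owners f).map fun o => decide (o = q.1))) ++
    (owners f).flatMap fun o =>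
      List.replicate (lead x) false ++
        (((List.range (mm f)).map fun i => decide (o = i)) ++ List.replicate (RR f) false)))

theorem PF.lst {γ : Type} [DEnc γ] {x : γ → List Bool} {u : γ → ℕ} (hx : PF x) (hu : PF u) :
    PF (fun c => lst f (x c) (u c)) :=
  PF.take (PF.const f) (PF.drop (PF.add (PF.mul (PF.lead hx) (PF.lead hx))
    (PF.mul hu (PF.const f))) (PF.rest hx))

theorem PF.prog : PF (prog f) := by
  have hn : PF (fun x : List Bool => lead x) := PF.lead PF.id'
  have hA : PF (fun x : List Bool => (List.range (lead x)).flatMap fun u =>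
      ((rest x).drop (u * lead x)).take (lead x) ++
        (((pats f).map fun q => decide (q.2 = Hck.lst f x u)) ++
          List.replicate (RR f) false)) := by
    refine PF.flatMap (f := fun c : List Bool × ℕ =>
      ((rest c.1).drop (c.2 * lead c.1)).take (lead c.1) ++
        (((pats f).map fun q => decide (q.2 = Hck.lst f c.1 c.2)) ++
          List.replicate (RR f) false)) (PF.range hn) ?_
    refine PF.append (PF.take (PF.lead PF.fst') (PF.drop (PF.mul PF.snd' (PF.lead PF.fst'))
      (PF.rest PF.fst'))) (PF.append ?_ (PF.const _))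
    exact PF.map (f := fun c : (List Bool × ℕ) × (ℕ × List Bool) =>
      decide (c.2.2 = Hck.lst f c.1.1 c.1.2)) (PF.const (pats f))
      (PF.eq (PF.snd PF.snd') (PF.lst f (PF.fst PF.fst') (PF.snd PF.fst')))
  have hB : PF (fun x : List Bool => (pats f).flatMap fun q =>
      ((List.range (lead x)).map fun u => decide (q.2 = Hck.lst f x u)) ++
        (List.replicate (mm f) false ++ (owners f).map fun o => decide (o = q.1))) := by
    refine PF.flatMap (f := fun c : List Bool × (ℕ × List Bool) =>
      ((List.range (lead c.1)).map fun u => decide (c.2.2 = Hck.lst f c.1 u)) ++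
        (List.replicate (mm f) false ++ (owners f).map fun o => decide (o = c.2.1)))
      (PF.const (pats f)) ?_
    refine PF.append ?_ (PF.append (PF.const _) ?_)
    · exact PF.map (f := fun c : (List Bool × (ℕ × List Bool)) × ℕ =>
        decide (c.1.2.2 = Hck.lst f c.1.1 c.2)) (PF.range (PF.lead PF.fst'))
        (PF.eq (PF.snd (PF.snd PF.fst')) (PF.lst f (PF.fst PF.fst') PF.snd'))
    · exact PF.map (f := fun c : (List Bool × (ℕ × List Bool)) × ℕ =>
        decide (c.2 = c.1.2.1)) (PF.const (owners f))
        (PF.natEq PF.snd' (PF.fst (PF.snd PF.fst')))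
  have hC : PF (fun x : List Bool => (owners f).flatMap fun o =>
      List.replicate (lead x) false ++
        (((List.range (mm f)).map fun i => decide (o = i)) ++
          List.replicate (RR f) false)) := by
    refine PF.flatMap (f := fun c : List Bool × ℕ => List.replicate (lead c.1) false ++
        (((List.range (mm f)).map fun i => decide (c.2 = i)) ++
          List.replicate (RR f) false)) (PF.const (owners f)) ?_
    refine PF.append (PF.replicate (PF.lead PF.fst') (PF.const false))
      (PF.append ?_ (PF.const _))
    exact PF.map (f := fun c : (List Bool × ℕ) × ℕ => decide (c.1.2 = c.2)) (PF.const _)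
      (PF.natEq (PF.snd PF.fst') PF.snd')
  exact PF.append (PF.replicate (PF.add hn (PF.const _)) (PF.const true))
    (PF.cons (PF.const false) (PF.append hA (PF.append hB hC)))

/-- three parts of a list of numbers -/
theorem range_three {β : Type} (n m R : ℕ) (g : ℕ → β) :
    (List.range (n + (m + R))).map g =
      (List.finRange n).map (fun u : Fin n => g u) ++
      ((List.finRange m).map (fun i : Fin m => g (n + i)) ++
        (List.finRange R).map (fun ρ : Fin R => g (n + (m + ρ)))) := by
  rw [List.range_add, List.range_add, List.map_append, List.map_append, List.map_append,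
    List.map_map, List.map_map, List.map_map, finRange_map n g,
    finRange_map m (fun i => g (n + i)), finRange_map R (fun ρ => g (n + (m + ρ)))]
  rfl

theorem range_three_flatMap {β : Type} (n m R : ℕ) (g : ℕ → List β) :
    (List.range (n + (m + R))).flatMap g =
      (List.finRange n).flatMap (fun u : Fin n => g u) ++
      ((List.finRange m).flatMap (fun i : Fin m => g (n + i)) ++
        (List.finRange R).flatMap (fun ρ : Fin R => g (n + (m + ρ)))) := by
  rw [List.flatMap_def, range_three, List.flatten_append, List.flatten_append]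
  rfl

end program

end Pool.Agent.H685R2.Hck
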